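import Pool.Agent.H.MP_90cb67_lc.A

set_option autoImplicit false
open Cardinal Filter

namespace Pool.Agent.Results.MP_90cb67_lc.Delta

def Internal (F : Ultrafilter ℕ) (S : Set (Germ (F : Filter ℕ) ℕ)) : Prop :=
  ∃ A : ℕ → Set ℕ, S = {x | ∃ n : ℕ → ℕ, x = (n : Germ (F : Filter ℕ) ℕ) ∧ {i | n i ∈ A i} ∈ F}

def cut (F : Ultrafilter ℕ) (P : ℕ → Set ℕ) : Set (Germ (F : Filter ℕ) ℕ) :=
  {x | ∃ n : ℕ → ℕ, x = (n : Germ (F : Filter ℕ) ℕ) ∧ ∀ j, BddAbove (n '' P j)}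

theorem result
    (hd : ∀ S : Set (ℕ → ℕ), #S < continuum → ∃ h : ℕ → ℕ, ∀ u ∈ S, ∃ᶠ n in atTop, u n < h n) :
    ∃ (F : Ultrafilter ℕ) (P : ℕ → Set ℕ), (∀ i, {i} ∉ F) ∧ (∀ j, (P j).Nonempty) ∧
      (∀ i, ∃! j, i ∈ P j) ∧ (∀ j, P j ∉ F) ∧ ¬ Internal F (cut F P) ∧
      ∃ A : ℕ → Set (Germ (F : Filter ℕ) ℕ), (∀ k, Internal F (A k)) ∧ cut F P = ⋂ k, A k := by
  classical
  obtain ⟨U, p, f, h0, h1, h2, h3⟩ := H.MP_90cb67_lc.core' hd
  have key : ∀ n : ℕ → ℕ, (n : Germ (U : Filter ℕ) ℕ) ∈ cut U (fun j => {i | p i = j}) ↔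
      ∃ h : ℕ → ℕ, {i | n i ≤ h (p i)} ∈ U := by
    intro n
    constructor
    · rintro ⟨m, e, hm⟩
      choose h hh using hm
      refine ⟨h, mem_of_superset (Germ.coe_eq.1 e) fun i hi => ?_⟩
      exact (le_of_eq hi).trans (hh (p i) ⟨i, rfl, rfl⟩)
    · rintro ⟨h, hh⟩
      refine ⟨fun i => min (n i) (h (p i)), Germ.coe_eq.2 (mem_of_superset hh fun i hi =>
        (min_eq_left hi).symm), fun j => ⟨h j, ?_⟩⟩
      rintro _ ⟨i, rfl, rfl⟩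
      exact min_le_right _ _
  refine ⟨U, fun j => {i | p i = j}, fun i h => h1 (p i) (mem_of_superset h ?_), h0,
    fun i => ⟨p i, rfl, fun j h => h.symm⟩, h1, ?_, fun k => {x | ∃ n : ℕ → ℕ,
      x = (n : Germ (U : Filter ℕ) ℕ) ∧ {i | n i ∈ Set.Iio (f k i)} ∈ U},
    fun k => ⟨_, rfl⟩, ?_⟩
  · rintro _ rfl
    rfl
  · rintro ⟨A, hA⟩
    have key2 : ∀ n : ℕ → ℕ, {i | n i ∈ A i} ∈ U ↔ ∃ h : ℕ → ℕ, {i | n i ≤ h (p i)} ∈ U := by
      intro n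
      rw [← key, hA]
      constructor
      · exact fun h => ⟨n, rfl, h⟩
      · rintro ⟨m, e, hm⟩
        filter_upwards [hm, Germ.coe_eq.1 e] with i a b
        rwa [b]
    let m : ℕ → ℕ := fun i => sInf (A i)ᶜ
    have a1 : {i | f 0 i ∈ A i}ᶜ ∈ U := Ultrafilter.compl_mem_iff_notMem.2 fun h =>
      ((key2 _).1 h).elim (h2 0)
    have a2 : {i | m i ∈ A i}ᶜ ∈ U := mem_of_superset a1 fun i hi => Nat.sInf_mem (s := (A i)ᶜ) ⟨f 0 i, hi⟩
    have a3 : {i | 0 ∈ A i} ∈ U := (key2 fun _ => 0).2 ⟨fun _ => 0, mem_of_superset univ_mem fun _ _ => le_refl 0⟩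
    have a4 : {i | m i - 1 ∈ A i} ∈ U := by
      filter_upwards [a2, a3] with i b c
      have : m i ≠ 0 := fun e => b (by rw [Set.mem_ofPred_eq, e]; exact c)
      by_contra hn
      have := Nat.sInf_le (s := (A i)ᶜ) hn
      simp only [m] at *
      omega
    obtain ⟨h, hh⟩ := (key2 _).1 a4
    refine Ultrafilter.compl_mem_iff_notMem.1 a2 ((key2 m).2 ⟨fun j => h j + 1,
      mem_of_superset hh fun i hi => ?_⟩)
    simp only [Set.mem_ofPred_eq] at hi ⊢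
    omega
  · ext x
    induction x using Germ.inductionOn with
    | h n =>
    rw [key, Set.mem_iInter]
    constructor
    · rintro ⟨h, hh⟩ k
      refine ⟨n, rfl, ?_⟩
      filter_upwards [hh, Ultrafilter.compl_mem_iff_notMem.2 (h2 k h)] with i a b
      exact a.trans_lt (not_le.1 b)
    · intro h
      refine (h3 n).resolve_left ?_
      rintro ⟨k, hk⟩
      obtain ⟨m, e, hm⟩ := h k
      obtain ⟨i, ⟨a, b⟩, c⟩ := Ultrafilter.nonempty_of_mem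
        (inter_mem (inter_mem hk hm) (Germ.coe_eq.1 e))
      exact (lt_of_eq_of_lt c b).not_ge a

end Pool.Agent.Results.MP_90cb67_lc.Delta
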